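import Pool.Agent.H97R2.LPB.Props

/-! CERT2: the certificate on `[2, 387/100]`. -/

set_option autoImplicit false

open Polynomial Filter Topology MeasureTheory Pool.Agent.H337R2 Pool.Agent.LP

namespace Pool.Agent.LPB

namespace C2aux

/-- `cnt` cells of width `st` starting at `x0`, affine upper bound `al + be x` -/
def chkL (M : ℕ) (l : List (ℤ × ℤ)) (al be : ℤ) (st : ℤ) : ℕ → ℤ → Bool
  | 0, _ => true
  | c + 1, x0 => cellOK M l (al + be * x0) x0 (x0 + st) && chkL M l al be st c (x0 + st)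

theorem chkL_spec {Dc M : ℕ} (hD : 0 < Dc) (hM : 1 ≤ M) (hM2 : M < 2 ^ 20) {l : List (ℤ × ℤ)}
    {al be : ℤ} (hbe : 0 ≤ be) (st : ℤ) (c : ℕ) :
    ∀ x0 : ℤ, c ≠ 0 → chkL M l al be st c x0 = true → ∀ w : ℝ, (x0 : ℝ) ≤ w → w ≤ x0 + c * st →
      EF Dc M l (w / M) ≤ (al + be * w) / (10 ^ 12 * Dc * M) := by
  have hD' : (0 : ℝ) < Dc := by exact_mod_cast hD
  have hM' : (0 : ℝ) < M := by exact_mod_cast (by omega : 0 < M)
  have hpos : (0 : ℝ) < 10 ^ 12 * Dc * M := by positivity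
  have hbe' : (0 : ℝ) ≤ be := by exact_mod_cast hbe
  induction c with
  | zero => intro x0 h; exact absurd rfl h
  | succ c ih =>
    intro x0 _ h w h0 h1
    simp only [chkL, Bool.and_eq_true] at h
    rcases le_or_gt w ((x0 + st : ℤ) : ℝ) with hw | hw
    · refine (cellOK_spec hD hM hM2 h.1 ((al + be * x0) / (10 ^ 12 * Dc * M)) ?_ w h0 hw).trans ?_
      · rw [div_mul_cancel₀ _ hpos.ne']
        push_cast
        exact le_rfl
      · gcongr
    · rcases Nat.eq_zero_or_pos c with hc | hc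
      · subst hc
        exfalso
        push_cast at hw h1
        linarith
      · refine ih (x0 + st) (by omega) h.2 w hw.le ?_
        push_cast at h1 ⊢
        linarith

/-- upper bound for the arctangent -/
theorem arctan_le (x : ℝ) (hx : 0 ≤ x) :
    Real.arctan x ≤ x - x ^ 3 / 3 + x ^ 5 / 5 - x ^ 7 / 7 + x ^ 9 / 9 := by
  let f : ℝ → ℝ := fun x => x - x ^ 3 / 3 + x ^ 5 / 5 - x ^ 7 / 7 + x ^ 9 / 9 - Real.arctan x
  have hd : ∀ x, HasDerivAt f (x ^ 10 / (1 + x ^ 2)) x := by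
    intro x
    have h1 : HasDerivAt f (1 - 3 * x ^ 2 / 3 + 5 * x ^ 4 / 5 - 7 * x ^ 6 / 7 + 9 * x ^ 8 / 9 -
        1 / (1 + x ^ 2)) x := by
      have h3 := (hasDerivAt_pow 3 x).div_const 3
      have h5 := (hasDerivAt_pow 5 x).div_const 5
      have h7 := (hasDerivAt_pow 7 x).div_const 7
      have h9 := (hasDerivAt_pow 9 x).div_const 9
      have := ((((hasDerivAt_id x).sub h3).add h5).sub h7).add h9
      have h10 := this.sub (Real.hasDerivAt_arctan x)
      norm_num at h10 ⊢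
      exact h10
    have h2 : (1 - 3 * x ^ 2 / 3 + 5 * x ^ 4 / 5 - 7 * x ^ 6 / 7 + 9 * x ^ 8 / 9 -
        1 / (1 + x ^ 2)) = x ^ 10 / (1 + x ^ 2) := by
      have : (1 + x ^ 2) ≠ 0 := by positivity
      field_simp
      ring
    rwa [h2] at h1
  have hmono : Monotone f := by
    apply monotone_of_deriv_nonneg (fun x => (hd x).differentiableAt)
    intro x
    rw [(hd x).deriv]
    have : 0 ≤ x ^ 10 := by positivity
    positivity
  have h0 := hmono hx
  have hf0 : f 0 = 0 := by simp [f]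
  rw [hf0] at h0
  have hfx : f x = x - x ^ 3 / 3 + x ^ 5 / 5 - x ^ 7 / 7 + x ^ 9 / 9 - Real.arctan x := rfl
  rw [hfx] at h0
  linarith

/-- the tangent of `P` at `m` -/
theorem tangent (h : S_shape) (m v : ℝ) (hm : 0 < m) (hm2 : m ≤ 387 / 100) (hv : 0 ≤ v)
    (hv2 : v ≤ 387 / 100) :
    2 * Pc 1 v - Pc 5 v - Real.pi * v ≤ 3 + Real.log (1 + m ^ 2) - 5 / 2 * Real.log (25 + m ^ 2) +
      (2 * Real.arctan (1 / m) - Real.arctan (5 / m) - Real.pi) * v := by
  set s := 2 * Real.arctan (1 / m) - Real.arctan (5 / m) - Real.pi with hs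
  have hm0 : m ∈ Set.Icc (0 : ℝ) (387 / 100) := ⟨hm.le, hm2⟩
  have hv0 : v ∈ Set.Icc (0 : ℝ) (387 / 100) := ⟨hv, hv2⟩
  have hder := h.1 m hm
  have hconc := h.2.1
  have key : 2 * Pc 1 v - Pc 5 v - Real.pi * v ≤
      (2 * Pc 1 m - Pc 5 m - Real.pi * m) + s * (v - m) := by
    rcases lt_trichotomy v m with hlt | heq | hgt
    · have h1 := hconc.le_slope_of_hasDerivAt hv0 hm0 hlt hder
      rw [slope_def_field, ← hs, le_div_iff₀ (by linarith)] at h1
      nlinarith
    · rw [heq]; simp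
    · have h1 := hconc.slope_le_of_hasDerivAt hm0 hv0 hgt hder
      rw [slope_def_field, ← hs, div_le_iff₀ (by linarith)] at h1
      linarith
  refine key.trans (le_of_eq ?_)
  have e1 : Pc 1 m = 1 / 2 * Real.log (1 + m ^ 2) - 1 + m * Real.arctan (1 / m) := by
    unfold Pc; norm_num
  have e5 : Pc 5 m = 5 / 2 * Real.log (25 + m ^ 2) - 5 + m * Real.arctan (5 / m) := by
    unfold Pc; norm_num
  rw [e1, e5, hs]
  ring

theorem log_bd (j : ℕ) (hj : 1 ≤ j) (hj2 : j < 2 ^ 20) (A : ℤ) (hA : lnA j = A) :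
    ((A : ℝ) - 20000) / 10 ^ 12 ≤ Real.log j ∧ Real.log j ≤ ((A : ℝ) + 20000) / 10 ^ 12 := by
  have h := lnA_spec j hj hj2
  rw [hA, abs_le] at h
  simp only [lnE] at h
  push_cast at h
  constructor
  · rw [div_le_iff₀ (by positivity)]
    linarith [h.1]
  · rw [le_div_iff₀ (by positivity)]
    linarith [h.2]

theorem log2_bd : (6931471 : ℝ) / 10 ^ 7 ≤ Real.log 2 ∧ Real.log 2 ≤ 6931473 / 10 ^ 7 := by
  have h1 := Real.log_two_gt_d9
  have h2 := Real.log_two_lt_d9
  constructor <;> norm_num at * <;> linarith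

theorem log29_bd : Real.log 29 ≤ 3367296 / 10 ^ 6 := by
  have h := (log_bd 29 (by norm_num) (by norm_num) 3367295829986 (by decide +kernel)).2
  push_cast at h
  refine h.trans ?_
  norm_num

theorem log5_bd : (1609437 : ℝ) / 10 ^ 6 ≤ Real.log 5 := by
  have h := (log_bd 5 (by norm_num) (by norm_num) 1609437912428 (by decide +kernel)).1
  push_cast at h
  refine le_trans ?_ h
  norm_num

theorem log53_bd : Real.log 53 ≤ 3970292 / 10 ^ 6 := by
  have h := (log_bd 53 (by norm_num) (by norm_num) 3970291913553 (by decide +kernel)).2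
  push_cast at h
  refine h.trans ?_
  norm_num

theorem log149_bd : (5003946 : ℝ) / 10 ^ 6 ≤ Real.log 149 := by
  have h := (log_bd 149 (by norm_num) (by norm_num) 5003946305945 (by decide +kernel)).1
  push_cast at h
  refine le_trans ?_ h
  norm_num

/-- the tangent at `5/2` -/
theorem tan1 (h : S_shape) (v : ℝ) (hv : 0 ≤ v) (hv2 : v ≤ 387 / 100) :
    2 * Pc 1 v - Pc 5 v - Real.pi * v ≤ -(3624 / 1000) - 34863 / 10000 * v := by
  have h1 := tangent h (5 / 2) v (by norm_num) (by norm_num) hv hv2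
  refine h1.trans ?_
  have e1 : (1 : ℝ) + (5 / 2) ^ 2 = 29 / 2 ^ 2 := by norm_num
  have e2 : (25 : ℝ) + (5 / 2) ^ 2 = 5 ^ 3 / 2 ^ 2 := by norm_num
  rw [e1, e2, Real.log_div (by norm_num) (by norm_num), Real.log_div (by norm_num) (by norm_num),
    Real.log_pow, Real.log_pow]
  have l2 := log2_bd.2
  have l29 := log29_bd
  have l5 := log5_bd
  have hs : 2 * Real.arctan (1 / (5 / 2)) - Real.arctan (5 / (5 / 2)) - Real.pi ≤
      -(34863 / 10000) := by
    have a1 : (1 : ℝ) / (5 / 2) = 2 / 5 := by norm_num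
    have a2 : (5 : ℝ) / (5 / 2) = (1 / 2)⁻¹ := by norm_num
    rw [a1, a2, Real.arctan_inv_of_pos (by norm_num)]
    have b1 := arctan_le (2 / 5) (by norm_num)
    have b2 := arctan_le (1 / 2) (by norm_num)
    have hp := Real.pi_gt_d4
    norm_num at b1 b2 hp ⊢
    linarith
  have hsv := mul_le_mul_of_nonneg_right hs hv
  push_cast
  linarith

/-- the tangent at `7/2` -/
theorem tan2 (h : S_shape) (v : ℝ) (hv : 0 ≤ v) (hv2 : v ≤ 387 / 100) :
    2 * Pc 1 v - Pc 5 v - Real.pi * v ≤ -(3460 / 1000) - 353 / 100 * v := by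
  have h1 := tangent h (7 / 2) v (by norm_num) (by norm_num) hv hv2
  refine h1.trans ?_
  have e1 : (1 : ℝ) + (7 / 2) ^ 2 = 53 / 2 ^ 2 := by norm_num
  have e2 : (25 : ℝ) + (7 / 2) ^ 2 = 149 / 2 ^ 2 := by norm_num
  rw [e1, e2, Real.log_div (by norm_num) (by norm_num), Real.log_div (by norm_num) (by norm_num),
    Real.log_pow]
  have l2 := log2_bd.2
  have l53 := log53_bd
  have l149 := log149_bd
  have hs : 2 * Real.arctan (1 / (7 / 2)) - Real.arctan (5 / (7 / 2)) - Real.pi ≤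
      -(353 / 100) := by
    have a1 : (1 : ℝ) / (7 / 2) = 2 / 7 := by norm_num
    have a2 : (5 : ℝ) / (7 / 2) = (7 / 10)⁻¹ := by norm_num
    rw [a1, a2, Real.arctan_inv_of_pos (by norm_num)]
    have b1 := arctan_le (2 / 7) (by norm_num)
    have b2 := arctan_le (7 / 10) (by norm_num)
    have hp := Real.pi_gt_d4
    norm_num at b1 b2 hp ⊢
    linarith
  have hsv := mul_le_mul_of_nonneg_right hs hv
  push_cast
  linarith

/-- the list for `2 Ux` -/
def lU : List (ℤ × ℤ) := [(192, -60), (-192, 60), (-160, 192), (160, -192)]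

theorem Ux_eq (v : ℝ) : 2 * Ux v = EF 165 64 lU v := by
  unfold Ux lU
  simp only [EF_cons, EF_nil]
  have e1 : v - ((-60 : ℤ) : ℝ) / (64 : ℕ) = v + 15 / 16 := by push_cast; ring
  have e2 : v - ((60 : ℤ) : ℝ) / (64 : ℕ) = v - 15 / 16 := by push_cast; ring
  have e3 : v - ((192 : ℤ) : ℝ) / (64 : ℕ) = v - 3 := by push_cast; ring
  have e4 : v - ((-192 : ℤ) : ℝ) / (64 : ℕ) = v + 3 := by push_cast; ring
  rw [e1, e2, e3, e4]
  push_cast
  ring

theorem EF1 (v : ℝ) (h0 : 2 ≤ v) (h1 : v ≤ 3) :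
    EF 165 64 lU v ≤ -(3026 / 1000) + 34863 / 10000 * v := by
  have hc : chkL 64 lU (-31954560000000000) 575239500000000 1 64 128 = true := by decide +kernel
  have h2 := chkL_spec (Dc := 165) (by norm_num) (by norm_num) (by norm_num) (by norm_num) 1 64 128
    (by norm_num) hc (v * (64 : ℕ)) (by push_cast; linarith) (by push_cast; linarith)
  rw [mul_div_cancel_right₀ _ (by norm_num)] at h2
  refine h2.trans (le_of_eq ?_)
  push_cast
  ring

theorem EF2 (v : ℝ) (h0 : 3 ≤ v) (h1 : v ≤ 387 / 100) :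
    EF 165 64 lU v ≤ -(3190 / 1000) + 353 / 100 * v := by
  have hc : chkL 64 lU (-33686400000000000) 582450000000000 1 56 192 = true := by decide +kernel
  have h2 := chkL_spec (Dc := 165) (by norm_num) (by norm_num) (by norm_num) (by norm_num) 1 56 192
    (by norm_num) hc (v * (64 : ℕ)) (by push_cast; linarith) (by push_cast; linarith)
  rw [mul_div_cancel_right₀ _ (by norm_num)] at h2
  refine h2.trans (le_of_eq ?_)
  push_cast
  ring

end C2aux

open C2aux

theorem V1_cert2 (h : S_shape) : S_cert2 := by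
  intro v h0 h1
  have hv : 0 ≤ v := by linarith
  have hP : Phi v = 2 * Pc 1 v - Pc 5 v - Real.pi * v := by
    unfold Phi
    rw [abs_of_nonneg hv]
  rw [hP, Ux_eq]
  rcases le_total v 3 with h3 | h3
  · have a1 := tan1 h v hv h1
    have a2 := EF1 v h0 h3
    linarith
  · have a1 := tan2 h v hv h1
    have a2 := EF2 v h3 h1
    linarith

end Pool.Agent.LPB
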